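import Pool.Agent.L0h10.TW.Abs

/-!
# Tate endomorphisms, semisimplicity and height on the first cohomology group

Let `k` be an algebraic closure of a field `K` of finite type over `ℚ`, embedded into the field of
complex numbers, and let `X` be an abelian variety over `k` which is defined over `K`. For a prime
number `ℓ` and `L = ℚ_ℓ`, the Galois group `Γ` of `k` over `K` acts on the `ℓ`-adic cohomology
algebras `V n = L ⊗ H(X(ℂ) ^ (n + 1), ℚ)` of the powers of `X`. Let `Ω` be an algebraic closure of
`L` and `U n = Ω ⊗ H(X(ℂ) ^ (n + 1), ℚ)`.
-/

universe v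

namespace Pool.Agent.L0h10.RX

open Pool.Agent.L0h10.TW

variable {L Ω : Type} [Field L] [Field Ω] {C : PowerCohomology L Ω} {Γ : Type v} [Group Γ]
  [TopologicalSpace Γ] (G : GaloisAction C Γ)

/-- The classes of the algebraic cycles on the powers of `X` are Tate classes. (This is always true:
every cycle is defined over a finite extension of `K`.) -/
def AlgebraicClassesAreTate : Prop := ∀ n j x, C.alg n j x → IsTate G n j x

/-- The bilinear form `φ` on `H(X, L)` is invariant under some open subgroup of `Γ`:
`χ(g) ^ i φ(g x, g y) = φ(x, y)` for all `x` and `y` of degree `i`. (The form of the Hodge-Riemann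
relations, given by the cup product, the primitive decomposition and the class of an ample divisor,
has this property: `χ(g) g` fixes the class of the divisor for all `g` in some open subgroup.) -/
def IsInvariant (φ : C.V 0 → C.V 0 → L) : Prop :=
  ∃ Δ : OpenSubgroup Γ, ∀ g ∈ Δ, ∀ i x y, C.deg 0 i x → C.deg 0 i y →
    G.χ g ^ i * φ (G.ρ 0 g x) (G.ρ 0 g y) = φ x y

/-- The cyclotomic character and the representation of `Γ` on `H(X, L)` are continuous: the values
of the linear forms at `g x` are continuous functions of `g`. (This is always true.) -/
def IsContinuous [TopologicalSpace L] : Prop :=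
  Continuous G.χ ∧ ∀ x (f : C.V 0 → L), IsLinearMap L f → Continuous fun g => f (G.ρ 0 g x)

/-- `D` is an infinitesimal operator which is zero on the Tate classes on the powers of `X`. -/
def IsMonodromyOperator (D : ∀ n, C.U n → C.U n) : Prop := IsInfinitesimal C D ∧ KillsTate G D

/-- The commutator `x ↦ f(g(x)) - g(f(x))`. -/
def commutator {U : Type} [AddCommGroup U] (f g : U → U) : U → U := fun x => f (g x) - g (f x)

/-- The centre of the Lie algebra of the infinitesimal operators which are zero on the Tate classes
is zero. (If the Galois action is semisimple, it means that the connected `ℓ`-adic algebraic monodromy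
group of `X`, modulo the homotheties coming from the weights, is semisimple.) -/
def SemisimpleMonodromy : Prop := ∀ Z, IsInfinitesimal C Z → KillsTate G Z →
  (∀ D, IsInfinitesimal C D → KillsTate G D → ∀ x, Z 0 (D 0 x) = D 0 (Z 0 x)) →
    ∀ x, IsZero (Z 0 x)

/-- The linear map `f` of `H(X, L)` induces a Tate endomorphism of `H^1(X, L)`: it maps `H^1(X, L)`
to itself, and there it commutes with the action of some open subgroup of `Γ`. -/
def IsTateEndomorphism (f : C.V 0 → C.V 0) : Prop :=
  IsLinearMap L f ∧ (∀ x, C.deg 0 1 x → C.deg 0 1 (f x)) ∧
    ∃ Δ : OpenSubgroup Γ, ∀ g ∈ Δ, ∀ x, C.deg 0 1 x → f (G.ρ 0 g x) = G.ρ 0 g (f x)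

/-- The elements of the centre of the algebra of the Tate endomorphisms of `H^1(X, L)` are
self-adjoint for the form `φ`. (If `X` is an abelian variety and `φ` is given by a polarisation, then
by the theorem of Faltings this algebra is `L ⊗ End(X)`, and the condition means that no simple
factor of `X` is of type IV.) -/
def CentreSelfAdjoint (φ : C.V 0 → C.V 0 → L) : Prop :=
  ∀ f, IsTateEndomorphism G f →
    (∀ h, IsTateEndomorphism G h → ∀ x, C.deg 0 1 x → f (h x) = h (f x)) →
      ∀ x y, C.deg 0 1 x → C.deg 0 1 y → φ (f x) y = φ x (f y)

/-- The representation `ρ` of `Γ` on the subspace `D` of `V` is semisimple: for every stable subspace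
`U` of `D` there is an equivariant linear projector from `D` to `U`. (Its kernel is a stable
complement of `U`.) -/
def SemisimpleOn {Γ : Type v} (L : Type) [Field L] {V : Type} [AddCommGroup V] [Module L V]
    (ρ : Γ → V → V) (D : V → Prop) : Prop :=
  ∀ U : Submodule L V, (∀ x ∈ U, D x ∧ ∀ g, ρ g x ∈ U) → ∃ p : V → V, IsLinearMap L p ∧
    (∀ x, D x → p x ∈ U ∧ ∀ g, p (ρ g x) = ρ g (p x)) ∧ ∀ x ∈ U, p x = x

/-- The representation `H^1(X, L)` of `Γ` is semisimple. (For abelian varieties it is a theorem of
Faltings.) -/
def IsSemisimple : Prop := SemisimpleOn L (G.ρ 0) (C.deg 0 1)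

/-- An infinitesimal operator which is zero on the Tate classes on the powers of `X`, and such that
the elements of `H^1(X, L)` are combinations, with coefficients in `Ω`, of eigenvectors whose
eigenvalues are integers of absolute value at most `w`. -/
def IsWeightOperator (w : ℕ) (D : ∀ n, C.U n → C.U n) : Prop :=
  IsMonodromyOperator G D ∧ ∀ x, C.deg 0 1 x →
    IsComb Ω (fun y => ∃ m : ℤ, |m| ≤ (w : ℤ) ∧ IsMul (m : Ω) y (D 0 y)) (C.up 0 x)

/-- The infinitesimal operators which are zero on the Tate classes act on `H(X)` as linear
combinations, with coefficients in `Ω`, of commutators of such operators and of operators as in the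
previous definition. -/
def HeightIsAtMost (w : ℕ) : Prop := ∀ D, IsMonodromyOperator G D →
  IsComb Ω (fun f => (∃ E, IsWeightOperator G w E ∧ E 0 = f) ∨ ∃ E F, IsMonodromyOperator G E ∧
    IsMonodromyOperator G F ∧ commutator (E 0) (F 0) = f) (D 0)

/-- The height of the monodromy on `H^1(X)`: the smallest `w` with this property. (It exists if the
Tate conjecture is true for `X ^ 4` and `H^1(X, L)` is semisimple, see the proof of the theorem. For
abelian varieties it is at most `1` by the theorem of Pink: the connected `ℓ`-adic algebraic
monodromy group is generated by cocharacters with the weights `0` and `1` on `H^1(X)`.) -/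
noncomputable def height : ℕ := sInf {w | HeightIsAtMost G w}

end Pool.Agent.L0h10.RX
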