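import Pool.Agent.L0h10.RX.Abs
import Pool.Agent.L0h10.RV.Conv
import Pool.Agent.L0h10.RW.Core

/-!
# The fourth power theorem: conversions
-/

open CategoryTheory AlgebraicGeometry
open scoped TensorProduct

universe u v

namespace Pool.Agent.L0h10.RX

open Pool.Agent.H914 Pool.Agent.H914.VarClass Pool.Agent.H914.VarClass.Obj
  Pool.Agent.H914.WeilCohomology
open Pool.Agent.Y121.AHS Pool.Agent.N996.FP
open Pool.Agent.Y133.Half (pw ClassPred)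
open Pool.Agent.Y121.AH (hodgePred)
open Pool.Agent.L0h10.TW Pool.Agent.L0h10.RT Pool.Agent.L0h10.RU
open Pool.Agent.L0h10.RS (TateClassesAreHodge inv_iff zero_iff alg_iff tq_iff hq_iff th_iff
  alg_sp)
open Pool.Agent.L0h10.RV (cts_iff)

variable {k : Type u} [Field k] {𝒱 : VarClass k} {ops : CycleOps 𝒱}
  {T : HodgeTheory ops} {X : 𝒱.Obj} {Γ : Type v} [Group Γ] [TopologicalSpace Γ]
  {ℓ : ℕ} [Fact ℓ.Prime] [Algebra T.W.K ℚ_[ℓ]] (G : TW.GaloisAction (powers T X ℚ_[ℓ]) Γ)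

lemma endo_iff (f : HL T.W ℚ_[ℓ] (pw X 0) → HL T.W ℚ_[ℓ] (pw X 0)) :
    IsTateEndo1 (toTS G) f ↔ IsTateEndomorphism G f :=
  ⟨fun h => ⟨⟨h.add, h.smul⟩, h.deg, h.comm⟩, fun h => ⟨h.1.map_add, h.1.map_smul, h.2.1, h.2.2⟩⟩

lemma adj_iff (φ : HL T.W ℚ_[ℓ] X → HL T.W ℚ_[ℓ] X → ℚ_[ℓ]) :
    CentreAdj1 (toTS G) φ ↔ CentreSelfAdjoint G φ :=
  forall_congr' fun f => imp_congr (endo_iff G f) <| imp_congr
    (forall_congr' fun h => imp_congr (endo_iff G h) Iff.rfl) Iff.rfl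

lemma ss_of (h : IsSemisimple G) : SSG (T := T) (X := X) (toTS G) := by
  intro U hU
  obtain ⟨p, h1, h2, h3⟩ := h U fun x hx => ⟨hU.1 x hx, fun g => hU.2 g x hx⟩
  let q : HL T.W ℚ_[ℓ] (pw X 0) →ₗ[ℚ_[ℓ]] HL T.W ℚ_[ℓ] (pw X 0) :=
    { toFun := p, map_add' := h1.map_add, map_smul' := h1.map_smul }
  let U' : Submodule ℚ_[ℓ] (HL T.W ℚ_[ℓ] (pw X 0)) :=
    ((T.W.gr (pw X 0) 1).baseChange ℚ_[ℓ]) ⊓ LinearMap.ker q
  have hm : ∀ x, x ∈ U' ↔ IsDeg 1 x ∧ p x = 0 := fun x => Iff.rfl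
  refine ⟨U', ⟨fun x hx => ((hm x).1 hx).1, fun g x hx => (hm _).2 ⟨?_, ?_⟩⟩, fun x hx hx' => ?_,
    fun x hx => ⟨q x, (h2 x hx).1, x - q x, (hm _).2 ⟨?_, ?_⟩, ?_⟩⟩
  · exact G.deg 0 g 1 x ((hm x).1 hx).1
  · have h4 := (hm x).1 hx
    exact ((h2 x h4.1).2 g).trans ((congrArg (G.ρ 0 g) h4.2).trans ((G.lin 0 g).map_zero))
  · exact (h3 x hx).symm.trans ((hm x).1 hx').2
  · exact Submodule.sub_mem _ hx (hU.1 _ (h2 x hx).1)
  · exact (q.map_sub x (q x)).trans (sub_eq_zero.2 (h3 _ (h2 x hx).1).symm)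
  · exact (add_sub_cancel (q x) x).symm

lemma weight_iff (w : ℕ) (D : ∀ n, (powers T X ℚ_[ℓ]).U n → (powers T X ℚ_[ℓ]).U n) :
    IsWeight1 (T := T) (X := X) (Ω := AlgebraicClosure ℚ_[ℓ]) (toTS G) w D ↔
      IsWeightOperator G w D :=
  ⟨fun h => ⟨⟨(inf_iff D).1 h.inf, (kt_iff G D).1 h.tate⟩, h.int⟩,
    fun h => ⟨(inf_iff D).2 h.1.1, (kt_iff G D).2 h.1.2, h.2⟩⟩

lemma hgt_iff (w : ℕ) : HGT1 (AlgebraicClosure ℚ_[ℓ]) (T := T) (X := X) (toTS G) w ↔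
    HeightIsAtMost G w := by
  have h1 : {f : (powers T X ℚ_[ℓ]).U 0 → (powers T X ℚ_[ℓ]).U 0 |
      (∃ E : TS.Operators T X (AlgebraicClosure ℚ_[ℓ]), IsWeight1 (toTS G) w E ∧ E 0 = f) ∨
      ∃ E F : TS.Operators T X (AlgebraicClosure ℚ_[ℓ]),
        (TS.IsInfinitesimal E ∧ TS.KillsTate (toTS G) E) ∧
        (TS.IsInfinitesimal F ∧ TS.KillsTate (toTS G) F) ∧ comm0 (E 0) (F 0) = f} =
      {f | (∃ E, IsWeightOperator G w E ∧ E 0 = f) ∨ ∃ E F, IsMonodromyOperator G E ∧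
        IsMonodromyOperator G F ∧ commutator (E 0) (F 0) = f} := by
    ext f
    constructor
    · rintro (⟨E, hE, rfl⟩ | ⟨E, F, hE, hF, rfl⟩)
      · exact Or.inl ⟨E, (weight_iff G w E).1 hE, rfl⟩
      · exact Or.inr ⟨E, F, ⟨(inf_iff E).1 hE.1, (kt_iff G E).1 hE.2⟩,
          ⟨(inf_iff F).1 hF.1, (kt_iff G F).1 hF.2⟩, rfl⟩
    · rintro (⟨E, hE, rfl⟩ | ⟨E, F, hE, hF, rfl⟩)
      · exact Or.inl ⟨E, (weight_iff G w E).2 hE, rfl⟩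
      · exact Or.inr ⟨E, F, ⟨(inf_iff E).2 hE.1, (kt_iff G E).2 hE.2⟩,
          ⟨(inf_iff F).2 hF.1, (kt_iff G F).2 hF.2⟩, rfl⟩
  constructor
  · intro h E hE
    have h2 := h E ((inf_iff E).2 hE.1) ((kt_iff G E).2 hE.2)
    exact (congrArg (fun S => E 0 ∈ Submodule.span (AlgebraicClosure ℚ_[ℓ]) S) h1).mp h2
  · intro h E hE hE'
    have h2 := h E ⟨(inf_iff E).1 hE, (kt_iff G E).1 hE'⟩
    exact (congrArg (fun S => E 0 ∈ Submodule.span (AlgebraicClosure ℚ_[ℓ]) S) h1).mpr h2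

lemma height_eq : hgt1 (T := T) (X := X) (toTS G) (AlgebraicClosure ℚ_[ℓ]) = height G := by
  rw [hgt1, height]
  congr 1
  ext w
  exact hgt_iff G w

/-- **The fourth power theorem.** -/
theorem fourth [IsTopologicalGroup Γ] [CompactSpace Γ] (θ : AlgebraicClosure ℚ_[ℓ] ≃+* ℂ)
    {ψ : RForm T.W X} (hψ : IsPolarisation T X ψ) (hX : OfAbelianType T X)
    (h1 : AlgebraicClassesAreTate G) (h2 : IsInvariant G (formL ℚ_[ℓ] ψ))
    (h3 : IsContinuous G) (h4 : IsSemisimple G) {N : ℕ}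
    (hN : (CentreSelfAdjoint G (formL ℚ_[ℓ] ψ) ∧ N = 4) ∨
      (SemisimpleMonodromy G ∧ N = max 4 (2 * X.dim)) ∨
        N = max 8 (4 * (max 1 (height G) * X.dim ^ 2) ^ X.dim)) :
    (TateConjecture G (N - 1) → ∀ n, TateConjecture G n ∧
      (HodgeClassesAreTate G → TW.HodgeConjecture (powers T X ℚ_[ℓ]) n)) ∧
    (HodgeClassesAreTate G → TateClassesAreHodge G (N - 1) → ∀ n, TateClassesAreHodge G n) := by
  have hN' : (CentreAdj1 (toTS G) (formL ℚ_[ℓ] ψ) ∧ N = 4) ∨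
      (CentreZero (AlgebraicClosure ℚ_[ℓ]) (T := T) (X := X) (toTS G) ∧
          N = max 4 (2 * X.dim)) ∨
        N = max 8 (4 * (max 1 (hgt1 (T := T) (X := X) (toTS G) (AlgebraicClosure ℚ_[ℓ])) *
          X.dim ^ 2) ^ X.dim) := by
    rcases hN with ⟨h5, h6⟩ | ⟨h5, h6⟩ | h6
    · exact Or.inl ⟨(adj_iff G _).2 h5, h6⟩
    · exact Or.inr (Or.inl ⟨(zero_iff G).2 h5, h6⟩)
    · exact Or.inr (Or.inr (by rw [height_eq]; exact h6))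
  refine ⟨fun hT n => ?_, fun h6 hT n => ?_⟩
  · have h5 := coreA (T := T) (X := X) (G := toTS G) (Q := algPred T) θ hψ hX alg_sp
      ((alg_iff G).2 h1) ((inv_iff G _).2 h2) ((cts_iff G).2 h3) (ss_of G h4) hN'
      ((tq_iff G _).2 hT) n
    refine ⟨(tq_iff G n).1 h5, fun h6 => ?_⟩
    have h7 := TS.hodge_of_tate (T := T) (X := X) (toTS G) ((h1_iff G).2 h6)
      ((tc_iff G n).2 ((tq_iff G n).1 h5))
    rintro j _ ⟨c, hc, rfl⟩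
    obtain ⟨z, hz, rfl⟩ := h7 j c hc
    exact ⟨z, hz, rfl⟩
  · exact (th_iff G n).1 (coreA (T := T) (X := X) (G := toTS G) (Q := hodgePred (toH T)) θ hψ hX
      (fun _ => le_rfl) ((hq_iff G).2 h6) ((inv_iff G _).2 h2) ((cts_iff G).2 h3)
      (ss_of G h4) hN' ((th_iff G _).2 hT) n)

end Pool.Agent.L0h10.RX
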